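import Mathlib

set_option autoImplicit false

namespace Pool.Agent.Results.MP_295a7b_co.NineTwentyEight

open Finset

/-- The thirteen triples of the pattern: the simple 2-(7,3,2) design (two disjoint Fano planes)
on `0,...,6` without its block `456`. -/
def T : Finset (Fin 7 × Fin 7 × Fin 7) :=
  {(0, 1, 5), (0, 2, 6), (1, 3, 6), (1, 2, 4), (2, 3, 5), (0, 3, 4), (0, 4, 6), (1, 5, 6),
    (0, 1, 2), (2, 3, 6), (1, 3, 4), (2, 4, 5), (0, 3, 5)}

/-- Explicit weight polynomial of the pattern. -/
def val (a b c d e f g : ℕ) : ℕ :=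
  a * b * f + a * c * g + b * d * g + b * c * e + c * d * f + a * d * e + a * e * g + b * f * g
    + a * b * c + c * d * g + b * d * e + c * e * f + a * d * f

theorem sum_T (w : Fin 7 → ℕ) :
    ∑ t ∈ T, w t.1 * (w t.2.1 * w t.2.2)
      = val (w 0) (w 1) (w 2) (w 3) (w 4) (w 5) (w 6) := by
  unfold T val
  rw [Finset.sum_insert (by decide), Finset.sum_insert (by decide), Finset.sum_insert (by decide),
    Finset.sum_insert (by decide), Finset.sum_insert (by decide), Finset.sum_insert (by decide),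
    Finset.sum_insert (by decide), Finset.sum_insert (by decide), Finset.sum_insert (by decide),
    Finset.sum_insert (by decide), Finset.sum_insert (by decide), Finset.sum_insert (by decide),
    Finset.sum_singleton]
  ring

/-- Exhaustive check over all weight vectors of total weight nine. -/
def check : Bool :=
  (List.range 10).all fun a => (List.range (10 - a)).all fun b =>
    (List.range (10 - a - b)).all fun c => (List.range (10 - a - b - c)).all fun d =>
      (List.range (10 - a - b - c - d)).all fun e =>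
        (List.range (10 - a - b - c - d - e)).all fun f =>
          Nat.ble (val a b c d e f (9 - a - b - c - d - e - f)) 27

theorem check_true : check = true := by decide +kernel

theorem val_le (a b c d e f g : ℕ) (h : a + b + c + d + e + f + g = 9) :
    val a b c d e f g ≤ 27 := by
  have H := check_true
  unfold check at H
  rw [List.all_eq_true] at H
  have H1 := H a (List.mem_range.2 (by omega))
  rw [List.all_eq_true] at H1
  have H2 := H1 b (List.mem_range.2 (by omega))
  rw [List.all_eq_true] at H2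
  have H3 := H2 c (List.mem_range.2 (by omega))
  rw [List.all_eq_true] at H3
  have H4 := H3 d (List.mem_range.2 (by omega))
  rw [List.all_eq_true] at H4
  have H5 := H4 e (List.mem_range.2 (by omega))
  rw [List.all_eq_true] at H5
  have H6 := H5 f (List.mem_range.2 (by omega))
  have hg : 9 - a - b - c - d - e - f = g := by omega
  rw [hg] at H6
  exact Nat.le_of_ble_eq_true H6

section construction

variable {V : Type} [DecidableEq V] (col : V → Fin 7)

/-- Ordered triples in `S` whose colours form a triple of `T`. -/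
def trip (S : Finset V) : Finset (V × V × V) :=
  (S ×ˢ (S ×ˢ S)).filter fun p => (col p.1, col p.2.1, col p.2.2) ∈ T

/-- The edges (3-sets) of the blow-up of the pattern inside `S`. -/
def edges (S : Finset V) : Finset (Finset V) :=
  (trip col S).image fun p => ({p.1, p.2.1, p.2.2} : Finset V)

theorem T_sorted : ∀ t ∈ T, t.1 < t.2.1 ∧ t.2.1 < t.2.2 := by decide +kernel

theorem card_trip (S : Finset V) :
    (trip col S).card = val (S.filter (fun v => col v = 0)).card
      (S.filter (fun v => col v = 1)).card (S.filter (fun v => col v = 2)).card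
      (S.filter (fun v => col v = 3)).card (S.filter (fun v => col v = 4)).card
      (S.filter (fun v => col v = 5)).card (S.filter (fun v => col v = 6)).card := by
  rw [← sum_T (fun i => (S.filter (fun v => col v = i)).card)]
  rw [Finset.card_eq_sum_card_fiberwise (f := fun p : V × V × V => (col p.1, col p.2.1, col p.2.2))
    (t := T)]
  · refine Finset.sum_congr rfl fun t ht => ?_
    rw [← Finset.card_product, ← Finset.card_product]
    congr 1
    ext p
    simp only [trip, Finset.mem_filter, Finset.mem_product]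
    constructor
    · rintro ⟨⟨⟨h1, h2, h3⟩, h4⟩, h5⟩
      rw [← h5]
      exact ⟨⟨h1, rfl⟩, ⟨h2, rfl⟩, ⟨h3, rfl⟩⟩
    · rintro ⟨⟨h1, e1⟩, ⟨h2, e2⟩, ⟨h3, e3⟩⟩
      refine ⟨⟨⟨h1, h2, h3⟩, ?_⟩, ?_⟩
      · rw [e1, e2, e3]; exact ht
      · rw [e1, e2, e3]
  · intro p hp
    simp only [trip, Finset.coe_filter, Set.mem_ofPred_eq] at hp
    exact hp.2

theorem edge_injOn (S : Finset V) :
    Set.InjOn (fun p : V × V × V => ({p.1, p.2.1, p.2.2} : Finset V)) (trip col S) := by
  rintro ⟨x, y, z⟩ hp ⟨x', y', z'⟩ hp' h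
  simp only [trip, Finset.coe_filter, Set.mem_ofPred_eq] at hp hp'
  obtain ⟨h1, h2⟩ := T_sorted _ hp.2
  obtain ⟨h1', h2'⟩ := T_sorted _ hp'.2
  simp only at h1 h2 h1' h2' h
  have hx : x ∈ ({x', y', z'} : Finset V) := by rw [← h]; simp
  have hy : y ∈ ({x', y', z'} : Finset V) := by rw [← h]; simp
  have hz : z ∈ ({x', y', z'} : Finset V) := by rw [← h]; simp
  simp only [Finset.mem_insert, Finset.mem_singleton] at hx hy hz
  rcases hx with rfl | rfl | rfl <;> rcases hy with rfl | rfl | rfl <;>
    rcases hz with rfl | rfl | rfl <;>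
    first
      | rfl
      | (exfalso; exact lt_irrefl _ h1)
      | (exfalso; exact lt_irrefl _ h2)
      | (exfalso; omega)

theorem card_edges (S : Finset V) : (edges col S).card = (trip col S).card :=
  Finset.card_image_of_injOn (edge_injOn col S)

theorem uniform (S : Finset V) : ∀ e ∈ edges col S, e.card = 3 := by
  intro e he
  simp only [edges, Finset.mem_image, trip, Finset.mem_filter] at he
  obtain ⟨⟨x, y, z⟩, ⟨_, hT⟩, rfl⟩ := he
  obtain ⟨h1, h2⟩ := T_sorted _ hT
  simp only at h1 h2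
  have hxy : x ≠ y := by rintro rfl; exact lt_irrefl _ h1
  have hyz : y ≠ z := by rintro rfl; exact lt_irrefl _ h2
  have hxz : x ≠ z := by rintro rfl; exact lt_irrefl _ (h1.trans h2)
  exact Finset.card_eq_three.2 ⟨x, y, z, hxy, hxz, hyz, rfl⟩

theorem filter_subset_edges [Fintype V] (S : Finset V) :
    (edges col univ).filter (fun e => e ⊆ S) ⊆ edges col S := by
  intro e he
  simp only [edges, Finset.mem_image, trip, Finset.mem_filter, Finset.mem_product] at he ⊢
  obtain ⟨⟨⟨x, y, z⟩, ⟨_, hT⟩, rfl⟩, hS⟩ := he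
  refine ⟨(x, y, z), ⟨⟨hS ?_, hS ?_, hS ?_⟩, hT⟩, rfl⟩ <;> simp

theorem nine_le [Fintype V] (S : Finset V) (hS : S.card = 9) :
    ((edges col univ).filter (fun e => e ⊆ S)).card ≤ 27 := by
  refine (Finset.card_le_card (filter_subset_edges col S)).trans ?_
  rw [card_edges, card_trip]
  refine val_le _ _ _ _ _ _ _ ?_
  have := Finset.card_eq_sum_card_fiberwise (f := col) (s := S) (t := univ)
    (fun _ _ => by simp)
  rw [hS, Fin.sum_univ_seven] at this
  exact this.symm

end construction

/-- A colouring of `Fin N` with prescribed colour class sizes. -/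
theorem exists_col (N : ℕ) (a : Fin 7 → ℕ) (ha : ∑ i, a i = N) :
    ∃ col : Fin N → Fin 7, ∀ i, (univ.filter (fun v => col v = i)).card = a i := by
  subst ha
  refine ⟨fun v => (finSigmaFinEquiv.symm v).1, fun i => ?_⟩
  have h1 : (univ.filter (fun v : Fin (∑ i, a i) => (finSigmaFinEquiv.symm v).1 = i)).card
      = (univ.filter (fun p : (Σ i : Fin 7, Fin (a i)) => p.1 = i)).card :=
    Finset.card_equiv finSigmaFinEquiv.symm (by simp)
  have h2 : (univ.filter (fun p : (Σ i : Fin 7, Fin (a i)) => p.1 = i))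
      = (univ : Finset (Fin (a i))).map (Function.Embedding.sigmaMk i) := by
    ext ⟨j, x⟩
    simp only [Finset.mem_filter, Finset.mem_univ, true_and, Finset.mem_map]
    constructor
    · rintro rfl
      exact ⟨x, rfl⟩
    · rintro ⟨y, hy⟩
      have := congrArg Sigma.fst hy
      exact this.symm
  rw [h1, h2, Finset.card_map, Finset.card_univ, Fintype.card_fin]

theorem exists_sizes (n : ℕ) (hn : 4 ≤ n) :
    ∃ a : Fin 7 → ℕ, ∑ i, a i = 3 * n ∧
      n ^ 3 + 1 ≤ val (a 0) (a 1) (a 2) (a 3) (a 4) (a 5) (a 6) := by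
  obtain ⟨k, s, hs, rfl⟩ : ∃ k s, s < 7 ∧ n = 7 * k + s :=
    ⟨n / 7, n % 7, Nat.mod_lt _ (by norm_num), (Nat.div_add_mod n 7).symm⟩
  interval_cases s
  · refine ⟨![3 * k, 3 * k, 3 * k, 3 * k, 3 * k, 3 * k, 3 * k], ?_, ?_⟩
    · simp [Fin.sum_univ_seven]; ring
    · obtain ⟨j, rfl⟩ : ∃ j, k = j + 1 := ⟨k - 1, by omega⟩
      simp [val]
      ring_nf
      nlinarith [sq_nonneg j]
  · refine ⟨![3 * k + 1, 3 * k + 1, 3 * k + 1, 3 * k, 3 * k, 3 * k, 3 * k], ?_, ?_⟩
    · simp [Fin.sum_univ_seven]; ring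
    · obtain ⟨j, rfl⟩ : ∃ j, k = j + 1 := ⟨k - 1, by omega⟩
      simp [val]
      ring_nf
      nlinarith [sq_nonneg j]
  · refine ⟨![3 * k + 1, 3 * k + 1, 3 * k + 1, 3 * k + 1, 3 * k + 1, 3 * k + 1, 3 * k], ?_, ?_⟩
    · simp [Fin.sum_univ_seven]; ring
    · obtain ⟨j, rfl⟩ : ∃ j, k = j + 1 := ⟨k - 1, by omega⟩
      simp [val]
      ring_nf
      nlinarith [sq_nonneg j]
  · refine ⟨![3 * k + 2, 3 * k + 2, 3 * k + 1, 3 * k + 1, 3 * k + 1, 3 * k + 1, 3 * k + 1], ?_, ?_⟩
    · simp [Fin.sum_univ_seven]; ring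
    · obtain ⟨j, rfl⟩ : ∃ j, k = j + 1 := ⟨k - 1, by omega⟩
      simp [val]
      ring_nf
      nlinarith [sq_nonneg j]
  · refine ⟨![3 * k + 2, 3 * k + 2, 3 * k + 2, 3 * k + 2, 3 * k + 2, 3 * k + 1, 3 * k + 1], ?_, ?_⟩
    · simp [Fin.sum_univ_seven]; ring
    · simp [val]
      ring_nf
      nlinarith [sq_nonneg k]
  · refine ⟨![3 * k + 3, 3 * k + 2, 3 * k + 2, 3 * k + 2, 3 * k + 2, 3 * k + 2, 3 * k + 2], ?_, ?_⟩
    · simp [Fin.sum_univ_seven]; ring
    · simp [val]
      ring_nf
      nlinarith [sq_nonneg k]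
  · refine ⟨![3 * k + 3, 3 * k + 3, 3 * k + 3, 3 * k + 3, 3 * k + 2, 3 * k + 2, 3 * k + 2], ?_, ?_⟩
    · simp [Fin.sum_univ_seven]; ring
    · simp [val]
      ring_nf
      nlinarith [sq_nonneg k]

/-- For every `n ≥ 4` there is a 3-graph on `3n` vertices with exactly `n^3+1` edges in which
every nine vertices span at most 27 edges. -/
theorem counterexample (n : ℕ) (hn : 4 ≤ n) :
    ∃ E : Finset (Finset (Fin (3 * n))), (∀ e ∈ E, e.card = 3) ∧ E.card = n ^ 3 + 1 ∧
      ∀ S : Finset (Fin (3 * n)), S.card = 9 → (E.filter (fun e => e ⊆ S)).card ≤ 27 := by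
  obtain ⟨a, ha, hval⟩ := exists_sizes n hn
  obtain ⟨col, hcol⟩ := exists_col (3 * n) a ha
  have hcard : n ^ 3 + 1 ≤ (edges col univ).card := by
    rw [card_edges, card_trip]
    simp only [hcol]
    exact hval
  obtain ⟨E, hE, hEc⟩ := Finset.exists_subset_card_eq hcard
  refine ⟨E, fun e he => uniform col univ e (hE he), hEc, fun S hS => ?_⟩
  exact (Finset.card_le_card (Finset.filter_subset_filter _ hE)).trans (nine_le col S hS)

/-- **Nine vertices spanning 28 edges.**  For `n ≥ 3`, the assertion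
every 3-graph with `3n` vertices and `n^3+1` edges has nine vertices spanning at least 28 edges
holds if and only if `n = 3`. -/
theorem result (n : ℕ) (hn : 3 ≤ n) :
    (∀ E : Finset (Finset (Fin (3 * n))), (∀ e ∈ E, e.card = 3) → E.card = n ^ 3 + 1 →
      ∃ S : Finset (Fin (3 * n)), S.card = 9 ∧ 28 ≤ (E.filter (fun e => e ⊆ S)).card)
    ↔ n = 3 := by
  constructor
  · intro h
    by_contra hne
    obtain ⟨E, hE3, hEc, hE⟩ := counterexample n (by omega)
    obtain ⟨S, hS, h28⟩ := h E hE3 hEc
    have := hE S hS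
    omega
  · rintro rfl E _ hEc
    refine ⟨univ, by simp, ?_⟩
    simp only [Finset.subset_univ, Finset.filter_true]
    omega

end Pool.Agent.Results.MP_295a7b_co.NineTwentyEight
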