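import Mathlib

set_option autoImplicit false

namespace Pool.Agent.Results.MP_295a7b_co.TripartitePlusEdge

open Finset

/-- `E` contains a copy of `K_3(3,3,3)` (parts `A`, `B`, `C`) together with one further edge
whose three vertices all lie among the nine vertices of that copy. -/
def HasPlusEdge {V : Type} [DecidableEq V] (E : Finset (Finset V)) : Prop :=
  ∃ A B C : Finset V, A.card = 3 ∧ B.card = 3 ∧ C.card = 3 ∧
    Disjoint A B ∧ Disjoint A C ∧ Disjoint B C ∧
    (∀ a ∈ A, ∀ b ∈ B, ∀ c ∈ C, ({a, b, c} : Finset V) ∈ E) ∧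
    ∃ e ∈ E, e ⊆ A ∪ B ∪ C ∧ ¬ ∃ a ∈ A, ∃ b ∈ B, ∃ c ∈ C, e = {a, b, c}

/-- The ten blocks of a 2-(6,3,2) design, as increasing triples. -/
def T : Finset (Fin 6 × Fin 6 × Fin 6) :=
  {(0, 1, 2), (0, 1, 3), (0, 2, 4), (0, 3, 5), (0, 4, 5), (1, 2, 5), (1, 3, 4), (1, 4, 5),
    (2, 3, 4), (2, 3, 5)}

/-- The same blocks, as 3-sets. -/
def D : Finset (Finset (Fin 6)) :=
  {{0, 1, 2}, {0, 1, 3}, {0, 2, 4}, {0, 3, 5}, {0, 4, 5}, {1, 2, 5}, {1, 3, 4}, {1, 4, 5},
    {2, 3, 4}, {2, 3, 5}}

theorem T_D : ∀ t ∈ T, ({t.1, t.2.1, t.2.2} : Finset (Fin 6)) ∈ D := by decide +kernel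

theorem T_sorted : ∀ t ∈ T, t.1 < t.2.1 ∧ t.2.1 < t.2.2 := by decide +kernel

theorem D_card : ∀ e ∈ D, e.card = 3 := by decide +kernel

/-- Any four points span at most two blocks (in particular). -/
theorem D_four : ∀ X Y Z W : Fin 6, ({X, Y, Z} : Finset (Fin 6)) ∈ D →
    ({X, Z, W} : Finset (Fin 6)) ∈ D → ({Y, Z, W} : Finset (Fin 6)) ∈ D → False := by
  decide +kernel

/-- No block is contained in the link of a pair. -/
theorem D_five : ∀ P Q X : Fin 6, ({X, P, Q} : Finset (Fin 6)) ∈ D →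
    ∀ Y : Fin 6, ({Y, P, Q} : Finset (Fin 6)) ∈ D →
    ∀ Z : Fin 6, ({Z, P, Q} : Finset (Fin 6)) ∈ D → ({X, Y, Z} : Finset (Fin 6)) ∈ D →
      False := by
  decide +kernel

/-- Explicit weight polynomial of the pattern. -/
def val (a b c d e f : ℕ) : ℕ :=
  a * b * c + a * b * d + a * c * e + a * d * f + a * e * f + b * c * f + b * d * e + b * e * f
    + c * d * e + c * d * f

theorem sum_T (w : Fin 6 → ℕ) :
    ∑ t ∈ T, w t.1 * (w t.2.1 * w t.2.2) = val (w 0) (w 1) (w 2) (w 3) (w 4) (w 5) := by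
  unfold T val
  rw [Finset.sum_insert (by decide), Finset.sum_insert (by decide), Finset.sum_insert (by decide),
    Finset.sum_insert (by decide), Finset.sum_insert (by decide), Finset.sum_insert (by decide),
    Finset.sum_insert (by decide), Finset.sum_insert (by decide), Finset.sum_insert (by decide),
    Finset.sum_singleton]
  ring

section construction

variable {V : Type} [DecidableEq V] [Fintype V] (col : V → Fin 6)

/-- All 3-sets whose set of colours is a block. -/
def edges : Finset (Finset V) :=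
  (univ.powersetCard 3).filter fun e => e.image col ∈ D

theorem mem_edges_triple {a b c : V} (h : ({a, b, c} : Finset V) ∈ edges col) :
    ({col a, col b, col c} : Finset (Fin 6)) ∈ D := by
  have := (Finset.mem_filter.1 h).2
  simpa [Finset.image_insert] using this

theorem card_ge : val (univ.filter (fun v => col v = 0)).card
      (univ.filter (fun v => col v = 1)).card (univ.filter (fun v => col v = 2)).card
      (univ.filter (fun v => col v = 3)).card (univ.filter (fun v => col v = 4)).card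
      (univ.filter (fun v => col v = 5)).card ≤ (edges col).card := by
  rw [← sum_T (fun i => (univ.filter (fun v => col v = i)).card)]
  let P : Finset (V × V × V) := univ.filter fun p => (col p.1, col p.2.1, col p.2.2) ∈ T
  have hP : P.card = ∑ t ∈ T, (univ.filter (fun v => col v = t.1)).card *
      ((univ.filter (fun v => col v = t.2.1)).card *
        (univ.filter (fun v => col v = t.2.2)).card) := by
    rw [Finset.card_eq_sum_card_fiberwise
      (f := fun p : V × V × V => (col p.1, col p.2.1, col p.2.2)) (t := T)]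
    · refine Finset.sum_congr rfl fun t ht => ?_
      rw [← Finset.card_product, ← Finset.card_product]
      congr 1
      ext p
      simp only [P, Finset.mem_filter, Finset.mem_product, Finset.mem_univ, true_and]
      constructor
      · rintro ⟨_, h5⟩
        rw [← h5]
        exact ⟨rfl, rfl, rfl⟩
      · rintro ⟨e1, e2, e3⟩
        refine ⟨?_, ?_⟩
        · rw [e1, e2, e3]; exact ht
        · rw [e1, e2, e3]
    · intro p hp
      simp only [P, Finset.coe_filter, Set.mem_ofPred_eq] at hp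
      exact hp.2
  rw [← hP]
  refine Finset.card_le_card_of_injOn (fun p => ({p.1, p.2.1, p.2.2} : Finset V)) ?_ ?_
  · rintro ⟨x, y, z⟩ hp
    simp only [P, Finset.coe_filter, Set.mem_ofPred_eq, Finset.mem_univ, true_and] at hp
    obtain ⟨h1, h2⟩ := T_sorted _ hp
    simp only at h1 h2
    have hxy : x ≠ y := by rintro rfl; exact lt_irrefl _ h1
    have hyz : y ≠ z := by rintro rfl; exact lt_irrefl _ h2
    have hxz : x ≠ z := by rintro rfl; exact lt_irrefl _ (h1.trans h2)
    have hD := T_D _ hp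
    simp only [edges, Finset.coe_filter, Set.mem_ofPred_eq, Finset.mem_powersetCard]
    refine ⟨⟨Finset.subset_univ _, Finset.card_eq_three.2 ⟨x, y, z, hxy, hxz, hyz, rfl⟩⟩, ?_⟩
    simpa [Finset.image_insert] using hD
  · rintro ⟨x, y, z⟩ hp ⟨x', y', z'⟩ hp' h
    simp only [P, Finset.coe_filter, Set.mem_ofPred_eq, Finset.mem_univ, true_and] at hp hp'
    obtain ⟨h1, h2⟩ := T_sorted _ hp
    obtain ⟨h1', h2'⟩ := T_sorted _ hp'
    simp only at h1 h2 h1' h2' h
    have hx : x ∈ ({x', y', z'} : Finset V) := by rw [← h]; simp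
    have hy : y ∈ ({x', y', z'} : Finset V) := by rw [← h]; simp
    have hz : z ∈ ({x', y', z'} : Finset V) := by rw [← h]; simp
    simp only [Finset.mem_insert, Finset.mem_singleton] at hx hy hz
    rcases hx with rfl | rfl | rfl <;> rcases hy with rfl | rfl | rfl <;>
      rcases hz with rfl | rfl | rfl <;>
      first
        | rfl
        | (exfalso; exact lt_irrefl _ h1)
        | (exfalso; exact lt_irrefl _ h2)
        | (exfalso; omega)

/-- If an edge has two vertices in the part `A` we get a contradiction. -/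
theorem aux {A B C : Finset V} (hB : B.Nonempty) (hC : C.Nonempty)
    (hK : ∀ a ∈ A, ∀ b ∈ B, ∀ c ∈ C, ({a, b, c} : Finset V) ∈ edges col)
    {x y z : V} (hx : x ∈ A) (hy : y ∈ A) (hz : z ∈ A ∪ B ∪ C)
    (he : ({x, y, z} : Finset V) ∈ edges col) : False := by
  obtain ⟨b, hb⟩ := hB
  obtain ⟨c, hc⟩ := hC
  simp only [Finset.mem_union] at hz
  rcases hz with (hz | hz) | hz
  · exact D_five (col b) (col c) (col x) (mem_edges_triple col (hK x hx b hb c hc))
      (col y) (mem_edges_triple col (hK y hy b hb c hc))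
      (col z) (mem_edges_triple col (hK z hz b hb c hc)) (mem_edges_triple col he)
  · exact D_four (col x) (col y) (col z) (col c) (mem_edges_triple col he)
      (mem_edges_triple col (hK x hx z hz c hc)) (mem_edges_triple col (hK y hy z hz c hc))
  · refine D_four (col x) (col y) (col z) (col b) (mem_edges_triple col he) ?_ ?_
    · have := mem_edges_triple col (hK x hx b hb z hz)
      rwa [Finset.pair_comm] at this
    · have := mem_edges_triple col (hK y hy b hb z hz)
      rwa [Finset.pair_comm] at this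

theorem no_plus (E : Finset (Finset V)) (hE : E ⊆ edges col) : ¬ HasPlusEdge E := by
  rintro ⟨A, B, C, hA, hB, hC, -, -, -, hK, e, he, heS, hne⟩
  have hA' : A.Nonempty := Finset.card_pos.1 (by omega)
  have hB' : B.Nonempty := Finset.card_pos.1 (by omega)
  have hC' : C.Nonempty := Finset.card_pos.1 (by omega)
  have hK1 : ∀ a ∈ A, ∀ b ∈ B, ∀ c ∈ C, ({a, b, c} : Finset V) ∈ edges col :=
    fun a ha b hb c hc => hE (hK a ha b hb c hc)
  have hK2 : ∀ b ∈ B, ∀ a ∈ A, ∀ c ∈ C, ({b, a, c} : Finset V) ∈ edges col := by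
    intro b hb a ha c hc
    have := hK1 a ha b hb c hc
    rwa [Finset.insert_comm] at this
  have hK3 : ∀ c ∈ C, ∀ a ∈ A, ∀ b ∈ B, ({c, a, b} : Finset V) ∈ edges col := by
    intro c hc a ha b hb
    have := hK1 a ha b hb c hc
    have h2 : ({a, b, c} : Finset V) = {c, a, b} := by
      ext v; simp only [Finset.mem_insert, Finset.mem_singleton]; tauto
    rwa [h2] at this
  have he' := hE he
  have hcard : e.card = 3 := (Finset.mem_powersetCard.1 (Finset.mem_filter.1 he').1).2
  obtain ⟨x, y, z, hxy, hxz, hyz, rfl⟩ := Finset.card_eq_three.1 hcard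
  have hx : x ∈ A ∪ B ∪ C := heS (by simp)
  have hy : y ∈ A ∪ B ∪ C := heS (by simp)
  have hz : z ∈ A ∪ B ∪ C := heS (by simp)
  have p1 : ({x, y, z} : Finset V) = {x, z, y} := by
    ext v; simp only [Finset.mem_insert, Finset.mem_singleton]; tauto
  have p2 : ({x, y, z} : Finset V) = {y, z, x} := by
    ext v; simp only [Finset.mem_insert, Finset.mem_singleton]; tauto
  have p3 : ({x, y, z} : Finset V) = {y, x, z} := by
    ext v; simp only [Finset.mem_insert, Finset.mem_singleton]; tauto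
  have p4 : ({x, y, z} : Finset V) = {z, x, y} := by
    ext v; simp only [Finset.mem_insert, Finset.mem_singleton]; tauto
  have p5 : ({x, y, z} : Finset V) = {z, y, x} := by
    ext v; simp only [Finset.mem_insert, Finset.mem_singleton]; tauto
  -- two vertices in a common part are impossible
  have key : ∀ A' B' C' : Finset V, B'.Nonempty → C'.Nonempty →
      (∀ a ∈ A', ∀ b ∈ B', ∀ c ∈ C', ({a, b, c} : Finset V) ∈ edges col) →
      (A' ∪ B' ∪ C' = A ∪ B ∪ C) →
      ¬ (x ∈ A' ∧ y ∈ A') ∧ ¬ (x ∈ A' ∧ z ∈ A') ∧ ¬ (y ∈ A' ∧ z ∈ A') := by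
    intro A' B' C' hB' hC' hK' hU
    refine ⟨fun h => ?_, fun h => ?_, fun h => ?_⟩
    · exact aux col hB' hC' hK' h.1 h.2 (hU ▸ hz) he'
    · exact aux col hB' hC' hK' h.1 h.2 (hU ▸ hy) (p1 ▸ he')
    · exact aux col hB' hC' hK' h.1 h.2 (hU ▸ hx) (p2 ▸ he')
  have kA := key A B C hB' hC' hK1 rfl
  have kB := key B A C hA' hC' hK2 (by rw [Finset.union_comm B A])
  have kC := key C A B hA' hB' hK3 (by
    rw [Finset.union_assoc, Finset.union_comm])
  simp only [Finset.mem_union] at hx hy hz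
  apply hne
  rcases hx with (hx | hx) | hx <;> rcases hy with (hy | hy) | hy <;>
    rcases hz with (hz | hz) | hz <;>
    first
      | exact (kA.1 ⟨hx, hy⟩).elim
      | exact (kA.2.1 ⟨hx, hz⟩).elim
      | exact (kA.2.2 ⟨hy, hz⟩).elim
      | exact (kB.1 ⟨hx, hy⟩).elim
      | exact (kB.2.1 ⟨hx, hz⟩).elim
      | exact (kB.2.2 ⟨hy, hz⟩).elim
      | exact (kC.1 ⟨hx, hy⟩).elim
      | exact (kC.2.1 ⟨hx, hz⟩).elim
      | exact (kC.2.2 ⟨hy, hz⟩).elim
      | exact ⟨x, hx, y, hy, z, hz, rfl⟩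
      | exact ⟨x, hx, z, hz, y, hy, p1⟩
      | exact ⟨y, hy, x, hx, z, hz, p3⟩
      | exact ⟨y, hy, z, hz, x, hx, p2⟩
      | exact ⟨z, hz, x, hx, y, hy, p4⟩
      | exact ⟨z, hz, y, hy, x, hx, p5⟩

end construction

/-- A colouring of `Fin N` with prescribed colour class sizes. -/
theorem exists_col (N : ℕ) (a : Fin 6 → ℕ) (ha : ∑ i, a i = N) :
    ∃ col : Fin N → Fin 6, ∀ i, (univ.filter (fun v => col v = i)).card = a i := by
  subst ha
  refine ⟨fun v => (finSigmaFinEquiv.symm v).1, fun i => ?_⟩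
  have h1 : (univ.filter (fun v : Fin (∑ i, a i) => (finSigmaFinEquiv.symm v).1 = i)).card
      = (univ.filter (fun p : (Σ i : Fin 6, Fin (a i)) => p.1 = i)).card :=
    Finset.card_equiv finSigmaFinEquiv.symm (by simp)
  have h2 : (univ.filter (fun p : (Σ i : Fin 6, Fin (a i)) => p.1 = i))
      = (univ : Finset (Fin (a i))).map (Function.Embedding.sigmaMk i) := by
    ext ⟨j, x⟩
    simp only [Finset.mem_filter, Finset.mem_univ, true_and, Finset.mem_map]
    constructor
    · rintro rfl
      exact ⟨x, rfl⟩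
    · rintro ⟨y, hy⟩
      have := congrArg Sigma.fst hy
      exact this.symm
  rw [h1, h2, Finset.card_map, Finset.card_univ, Fintype.card_fin]

theorem exists_sizes (n : ℕ) :
    ∃ a : Fin 6 → ℕ, ∑ i, a i = 3 * n ∧
      5 * n ^ 3 + 2 ≤ 4 * val (a 0) (a 1) (a 2) (a 3) (a 4) (a 5) + 3 * n + 2 * (1 - n % 2) := by
  obtain ⟨k, s, hs, rfl⟩ : ∃ k s, s < 2 ∧ n = 2 * k + s :=
    ⟨n / 2, n % 2, Nat.mod_lt _ (by norm_num), (Nat.div_add_mod n 2).symm⟩
  interval_cases s
  · refine ⟨![k, k, k, k, k, k], ?_, ?_⟩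
    · simp [Fin.sum_univ_six]; ring
    · have : (2 * k + 0) % 2 = 0 := by omega
      rw [this]
      simp [val]
      ring_nf
      nlinarith [sq_nonneg k]
  · refine ⟨![k + 1, k + 1, k + 1, k, k, k], ?_, ?_⟩
    · simp [Fin.sum_univ_six]; ring
    · have : (2 * k + 1) % 2 = 1 := by omega
      rw [this]
      simp [val]
      ring_nf
      nlinarith [sq_nonneg k]

/-- Let `n ≥ 3`.  For every `M ≤ (5 n^3 - 3 n + 2) / 4`, a range which contains `n^3 + 1`, there
is a 3-graph with `3n` vertices and exactly `M` edges that contains no copy of `K_3(3,3,3)`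
together with a further edge inside the vertex set of that copy. -/
theorem result (n : ℕ) (hn : 3 ≤ n) :
    n ^ 3 + 1 ≤ (5 * n ^ 3 - 3 * n + 2) / 4 ∧
    ∀ M : ℕ, M ≤ (5 * n ^ 3 - 3 * n + 2) / 4 →
      ∃ E : Finset (Finset (Fin (3 * n))), (∀ e ∈ E, e.card = 3) ∧ E.card = M ∧
        ¬ HasPlusEdge E := by
  have h3 : 3 * n + 2 ≤ n ^ 3 := by
    nlinarith [sq_nonneg n, Nat.mul_le_mul hn hn, Nat.mul_le_mul (Nat.mul_le_mul hn hn) hn]
  refine ⟨by omega, fun M hM => ?_⟩
  obtain ⟨a, ha, hval⟩ := exists_sizes n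
  obtain ⟨col, hcol⟩ := exists_col (3 * n) a ha
  have hcard : M ≤ (edges col).card := by
    refine le_trans ?_ (card_ge col)
    simp only [hcol]
    rcases Nat.mod_two_eq_zero_or_one n with h | h
    · rw [h] at hval
      omega
    · rw [h] at hval
      omega
  obtain ⟨E, hE, hEc⟩ := Finset.exists_subset_card_eq hcard
  exact ⟨E, fun e he => (Finset.mem_powersetCard.1 (Finset.mem_filter.1 (hE he)).1).2, hEc,
    no_plus col E hE⟩

end Pool.Agent.Results.MP_295a7b_co.TripartitePlusEdge
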